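import Pool.Agent.H79.WC.Defs
import Pool.Agent.H79.L.W5h68_BT_ClassDefs
import Pool.Agent.H79.L.W5h68_SP_FmDefs
import Pool.Agent.H79.L.W5h68_PJ_SysDefs

/-!
# Conjectures closed under products, for schemes built from schemes of small dimension: definitions
-/

set_option autoImplicit false

open CategoryTheory Limits MonoidalCategory AlgebraicGeometry Pool.Agent.Y116.UV
  Pool.Agent.W5h68.SP Pool.Agent.W5h68.PJ Pool.Agent.W5h68.BT Pool.Agent.H89.Dev Pool.Agent.H79.WC

universe v u

namespace Pool.Agent.H91.RF

/-- The Künneth formula `W(X × Z) = W(Z) ⊗ h(X)` for the weight complexes (Gillet and Soulé), for the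
smooth projective varieties `X` (the schemes of the class `Q`) and all separated schemes `Z` of finite
type. -/
def HasKunneth {k : Type} [Field k] {𝒜 : Type u} [Category.{v} 𝒜] [Preadditive 𝒜]
    [HasZeroObject 𝒜] [HasBinaryBiproducts 𝒜] [MonoidalCategory 𝒜] [MonoidalPreadditive 𝒜]
    (Q : Sch k → Prop) (h : Sch k → 𝒜) (W : Sch k → HomotopyCategory 𝒜 (ComplexShape.up ℤ)) :
    Prop :=
  ∀ X, Q X → ∀ Z, FT True Z → Nonempty (W (pr X Z) ≅ tens (h X) (W Z))

/-- **The reduction to dimension at most `n` for products, coverings and systems of equations between
read-once formulas.** The property `P` extends the property `C` of the schemes of the class `Q` to all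
separated schemes of finite type.

* If all integral schemes of dimension at most `n` have birational models in the class, then `C` for the
  schemes of the class of dimension at most `n` is equivalent to `P` for all schemes in `Built k n`, and it
  implies `C` for all schemes of the class in `Built k n`, of any dimension.
* `Built k n` contains the systems of equations between read-once formulas in affine and in projective
  spaces. -/
structure TensorReduces {k : Type} [Field k] (Q C P : Sch k → Prop) : Prop where
  dim_iff : ∀ n, ModelsIn Q n → (ForClass Q C n ↔ ∀ X : Sch k, Built k n X → P X)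
  of_dim : ∀ n, ModelsIn Q n → ForClass Q C n → ∀ X : Sch k, Q X → Built k n X → C X
  affine : ∀ n, ReadOnceSystems k n (Built k n)
  projective : ∀ n, ProjectiveSystems k n (Built k n)

end Pool.Agent.H91.RF
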