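import Pool.Agent.H91.RF.Defs
import Pool.Agent.H79.WC.LB

/-!
# Conjectures closed under products, for schemes built from schemes of small dimension
-/

set_option autoImplicit false
set_option linter.unusedSectionVars false

open CategoryTheory Limits MonoidalCategory AlgebraicGeometry Pool.Agent.Y116.UV
  Pool.Agent.W5h68.SP Pool.Agent.W5h68.PJ Pool.Agent.W5h68.BT Pool.Agent.H89.Dev Pool.Agent.H79.WC

universe v u

namespace Pool.Agent.H91.RF

variable {k : Type} [Field k] {𝒜 : Type u} [Category.{v} 𝒜] [Preadditive 𝒜] [HasZeroObject 𝒜]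
  [HasBinaryBiproducts 𝒜] [MonoidalCategory 𝒜] [MonoidalPreadditive 𝒜] {V : Cls 𝒜}
  {T : ℤ → 𝒜} {W : Sch k → HomotopyCategory 𝒜 (ComplexShape.up ℤ)}

/-- **The reduction, for any class of motives closed under sums, retracts, Tate twists and tensor
products.** -/
theorem tensorReduces (hT : ∀ (j : ℤ) (A : 𝒜), V.prop A → V.prop (A ⊗ T j)) (h0 : V.prop (T 0))
    (hV : ∀ A B : 𝒜, V.prop A → V.prop B → V.prop (A ⊗ B))
    (hW : IsWeightComplex T W) (hc : HasCoverings W) {Q : Sch k → Prop} (hQ : IsClass Q)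
    (h : Sch k → 𝒜) (hh : ∀ X, Q X → Nonempty (W X ≅ cpx (h X))) (hK : HasKunneth Q h W) :
    TensorReduces Q (fun X => V.prop (h X)) (fun X => Null V.prop (W X).as) := by
  have hC : ∀ X, Q X → (V.prop (h X) ↔ Null V.prop (W X).as) := fun X hX => by
    obtain ⟨e⟩ := hh X hX
    rw [← null_cpx]
    exact ⟨fun h1 => h1.of_iso e.symm, fun h1 => h1.of_iso e⟩
  have key : ∀ n, ModelsIn Q n → ForClass Q (fun X => V.prop (h X)) n → ∀ X : Sch k,
      Built k n X → Null V.prop (W X).as := by
    intro n hM hn X hX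
    refine built_null hT h0 hW hc hQ hM (fun Y hY => ?_) hX
    induction hY with
    | point =>
      obtain ⟨e⟩ := hW.point
      exact (null_cpx.mpr h0).of_iso e.symm
    | @mul X Y hX hXn hY ih =>
      obtain ⟨e⟩ := hK X hX Y (isPr_ft hQ hY)
      exact (ih.map (h X) fun A hA => hV A (h X) hA (hn X hX hXn)).of_iso e.symm
  exact ⟨fun n hM => ⟨key n hM, fun h1 X hX hn => (hC X hX).mpr (h1 X (built_of_dim (hQ.ft hX) hn))⟩,
    fun n hM hn X hQX hX => (hC X hQX).mpr (key n hM hn X hX), readOnce_built, projective_built⟩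

end Pool.Agent.H91.RF
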