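import Pool.Agent.H91.QS.SemiDefs

/-!
# Semisimplicity of Galois modules attached to motives, in all degrees: definitions
-/

set_option autoImplicit false

open CategoryTheory Limits MonoidalCategory Pool.Agent.H91.QS

universe v u w r

namespace Pool.Agent.H91.RF

variable {𝒜 : Type u} [Category.{v} 𝒜] [Preadditive 𝒜] {R : Type r} [Ring R]

/-- The Galois modules `H_j(M)` are semisimple for all `j`. -/
def AllSemi (H : ℤ → 𝒜 ⥤ ModuleCat.{w} R) (M : 𝒜) : Prop :=
  ∀ j, IsSemisimpleModule R ((H j).obj M)

/-- If all homology groups of `M` and of `N` are semisimple, then also those of `M ⊗ N`. (For the `ℓ`-adic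
homology of motives over a field this follows from the Künneth formula
`H_j(M ⊗ N) = ⨁_{a + b = j} H_a(M) ⊗ H_b(N)` and Chevalley's theorem: tensor products of finite dimensional
semisimple representations of a group over a field of characteristic zero are semisimple.) -/
def TensorSemi [MonoidalCategory 𝒜] (H : ℤ → 𝒜 ⥤ ModuleCat.{w} R) : Prop :=
  ∀ M N : 𝒜, AllSemi H M → AllSemi H N → AllSemi H (M ⊗ N)

end Pool.Agent.H91.RF
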