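import Pool.Agent.H91.RF.Main
import Pool.Agent.H91.RF.SemiDefs
import Pool.Agent.H91.QS.Semi

/-!
# Semisimplicity of Galois modules attached to motives, in all degrees
-/

set_option autoImplicit false
set_option linter.unusedSectionVars false

open CategoryTheory Limits MonoidalCategory Pool.Agent.H91.QS Pool.Agent.H79.WC

universe v u w r

namespace Pool.Agent.H91.RF

variable {𝒜 : Type u} [Category.{v} 𝒜] [Preadditive 𝒜] {R : Type r} [Ring R]
  {H : ℤ → 𝒜 ⥤ ModuleCat.{w} R}

omit [Preadditive 𝒜] in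
lemma allSemi_iff {M : 𝒜} : AllSemi H M ↔ Semi H 0 M ∧ Semi H 1 M := by
  refine ⟨fun h => ⟨fun j _ => h j, fun j _ => h j⟩, fun h j => ?_⟩
  rcases Int.even_or_odd j with hj | hj
  · exact h.1 j (by simpa using hj)
  · exact h.2 j (by
      obtain ⟨m, rfl⟩ := hj
      exact ⟨m, by ring⟩)

variable [HasBinaryBiproducts 𝒜] [MonoidalCategory 𝒜] {T : ℤ → 𝒜}

/-- the class of the motives with semisimple homology -/
def allSemiCls (hH : IsGaloisHomology T H) : Cls 𝒜 where
  prop := AllSemi H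
  nonempty := ⟨T 0, hH.unit⟩
  sum A B hA hB := by
    rw [allSemi_iff] at hA hB ⊢
    exact ⟨Semi.sum hH.additive hA.1 hB.1, Semi.sum hH.additive hA.2 hB.2⟩
  retract A B s t hs hB := by
    rw [allSemi_iff] at hB ⊢
    exact ⟨Semi.retract s t hs hB.1, Semi.retract s t hs hB.2⟩

lemma AllSemi.twist (hH : IsGaloisHomology T H) {A : 𝒜} (h : AllSemi H A) (l : ℤ) :
    AllSemi H (A ⊗ T l) := by
  rw [allSemi_iff] at h ⊢
  exact ⟨Semi.twist hH h.1 l, Semi.twist hH h.2 l⟩

end Pool.Agent.H91.RF
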